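import Pool.Agent.H.MP_160a79_an.B

set_option autoImplicit false

namespace Pool.Agent.H.MP_44bc16_an

open Finset Filter Topology MP_9aa7de MP_160a79_an

lemma stab {P : Type} (le : P → P → Prop) (rf : ∀ p, le p p)
    (cl : ∀ f : ℕ → P, (∀ n, le (f (n + 1)) (f n)) → ∃ q, ∀ n, le q (f n))
    (tr : ∀ p q r, le p q → le q r → le p r) (g : P → ℝ) (mo : ∀ p q, le q p → g p ≤ g q)
    {M : ℝ} (bd : ∀ p, g p ≤ M) (p : P) : ∃ q, le q p ∧ ∀ r, le r q → g r = g q := by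
  have h : ∀ (n : ℕ) p, ∃ q, le q p ∧ ∀ r, le r p → g r < g q + 1 / (n + 1) := fun n p => by
    have bb : BddAbove (g '' {q | le q p}) := ⟨M, by rintro _ ⟨q, -, rfl⟩; exact bd q⟩
    obtain ⟨_, ⟨q, h1, rfl⟩, h2⟩ := exists_lt_of_lt_csSup (s := g '' {q | le q p}) ⟨_, p, rf p, rfl⟩
      (sub_lt_self _ (show (0 : ℝ) < 1 / (n + 1) by positivity))
    exact ⟨q, h1, fun r hr => by linarith [le_csSup bb ⟨r, hr, rfl⟩]⟩
  choose nx h1 h2 using h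
  let f : ℕ → P := fun n => Nat.rec p nx n
  obtain ⟨q, hq⟩ := cl f fun n => h1 n (f n)
  refine ⟨q, hq 0, fun r hr => le_antisymm (le_of_forall_pos_le_add fun ε hε => ?_) (mo _ _ hr)⟩
  obtain ⟨n, hn⟩ := exists_nat_one_div_lt hε
  linarith [h2 n (f n) r (tr _ _ _ hr (hq n)), mo _ _ (hq (n + 1)), show g (f (n + 1)) =
    g (nx n (f n)) from rfl]

variable {W : Type} [LinearOrder W]

/-- first difference -/
def Sp (s t : W → W) (δ : W) : Prop := (∀ ξ < δ, s ξ = t ξ) ∧ s δ ≠ t δ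

/-- binary splitting with decreasing labels below `β` -/
def Fa (o β : W) (B : Set (W → W)) : Prop :=
  ∀ s ∈ B, ∀ t ∈ B, ∀ δ, Sp s t δ → (s δ = o ∨ t δ = o) ∧ max (s δ) (t δ) < β ∧
    ∀ u ∈ B, ∀ δ', δ < δ' → Sp t u δ' → max (t δ') (u δ') < max (s δ) (t δ)

variable {o : W}

lemma Fa.mono {β γ : W} {A B : Set (W → W)} (h : Fa o β B) (h1 : A ⊆ B) (h2 : β ≤ γ) :
    Fa o γ A := fun s hs t ht δ hδ =>
  let ⟨a, b, c⟩ := h s (h1 hs) t (h1 ht) δ hδ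
  ⟨a, b.trans_le h2, fun u hu => c u (h1 hu)⟩

lemma Fa.sub (β : W) {A : Set (W → W)} (h : A.Subsingleton) : Fa o β A :=
  fun _ hs _ ht _ hδ => (hδ.2 (congrFun (h hs ht) _)).elim

lemma Fa.un {β γ δ : W} {A B : Set (W → W)} {f : W → W} (hA : Fa o γ A) (hB : Fa o γ B)
    (h1 : o < γ) (h2 : γ < β) (a : ∀ s ∈ A, (∀ ξ < δ, s ξ = f ξ) ∧ s δ = γ)
    (b : ∀ s ∈ B, (∀ ξ < δ, s ξ = f ξ) ∧ s δ = o) : Fa o β (A ∪ B) := by
  have e : ∀ s ∈ A ∪ B, ∀ ξ < δ, s ξ = f ξ := fun s hs => hs.elim (a s ·|>.1) (b s ·|>.1)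
  have k : ∀ s ∈ A ∪ B, ∀ t ∈ A ∪ B, ∀ ε, Sp s t ε → δ ≤ ε := fun s hs t ht ε h =>
    not_lt.1 fun h' => h.2 ((e s hs ε h').trans (e t ht ε h').symm)
  have m : ∀ s ∈ A, ∀ t ∈ B, s δ ≠ t δ := fun s hs t ht => by
    rw [(a s hs).2, (b t ht).2]; exact h1.ne'
  have l : ∀ t ∈ A ∪ B, ∀ u ∈ A ∪ B, ∀ ε, δ < ε → Sp t u ε →
      t ∈ A ∧ u ∈ A ∨ t ∈ B ∧ u ∈ B := fun t ht u hu ε h h' => by
    rcases ht with ht | ht <;> rcases hu with hu | hu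
    · exact .inl ⟨ht, hu⟩
    · exact (m t ht u hu (h'.1 δ h)).elim
    · exact (m u hu t ht (h'.1 δ h).symm).elim
    · exact .inr ⟨ht, hu⟩
  intro s hs t ht ε hε
  rcases (k s hs t ht ε hε).eq_or_lt with rfl | h
  · have v : (s δ = o ∨ t δ = o) ∧ max (s δ) (t δ) = γ := by
      rcases hs with hs | hs <;> rcases ht with ht | ht
      · exact (hε.2 ((a s hs).2.trans (a t ht).2.symm)).elim
      · simp [(a s hs).2, (b t ht).2, h1.le]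
      · simp [(b s hs).2, (a t ht).2, h1.le]
      · exact (hε.2 ((b s hs).2.trans (b t ht).2.symm)).elim
    rw [v.2]
    exact ⟨v.1, h2, fun u hu ε h h' => (l t ht u hu ε h h').elim
      (fun x => (hA t x.1 u x.2 ε h').2.1) fun x => (hB t x.1 u x.2 ε h').2.1⟩
  · rcases l s hs t ht ε h hε with x | x
    · obtain ⟨c1, c2, c3⟩ := hA s x.1 t x.2 ε hε
      exact ⟨c1, c2.trans h2, fun u hu ε' h3 h4 => (l t ht u hu ε' (h.trans h3) h4).elim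
        (fun y => c3 u y.2 ε' h3 h4) fun y => (m t x.2 t y.1 rfl).elim⟩
    · obtain ⟨c1, c2, c3⟩ := hB s x.1 t x.2 ε hε
      exact ⟨c1, c2.trans h2, fun u hu ε' h3 h4 => (l t ht u hu ε' (h.trans h3) h4).elim
        (fun y => (m t y.1 t x.2 rfl).elim) fun y => c3 u y.2 ε' h3 h4⟩

variable [WellFoundedLT W]

lemma exSp {s t : W → W} {ξ : W} (h : s ξ ≠ t ξ) : ∃ δ ≤ ξ, Sp s t δ := by
  obtain ⟨δ, h1, h2⟩ := (wellFounded_lt (α := W)).has_min {ξ | s ξ ≠ t ξ} ⟨ξ, h⟩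
  exact ⟨δ, not_lt.1 (h2 ξ h), fun η hη => not_not.1 fun h => h2 η h hη, h1⟩

lemma Fa.fin {β : W} {U : Set (W → W)} (h : Fa o β U) : U.Finite := by
  induction β using WellFoundedLT.induction generalizing U with
  | _ β ih =>
  rcases U.subsingleton_or_nontrivial with h0 | ⟨s, hs, t, ht, h0⟩
  · exact h0.finite
  obtain ⟨ξ, hξ⟩ := Function.ne_iff.1 h0
  obtain ⟨δ, -, hδ⟩ := exSp hξ
  obtain ⟨δ, ⟨s, hs, t, ht, h1⟩, h2⟩ := (wellFounded_lt (α := W)).has_min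
    {δ | ∃ s ∈ U, ∃ t ∈ U, Sp s t δ} ⟨δ, s, hs, t, ht, hδ⟩
  have e : ∀ u ∈ U, ∀ v ∈ U, u δ ≠ v δ → Sp u v δ := fun u hu v hv h => ⟨fun ξ hξ => by
    by_contra h
    obtain ⟨ε, h3, h4⟩ := exSp h
    exact h2 ε ⟨u, hu, v, hv, h4⟩ (h3.trans_lt hξ), h⟩
  have k : ∀ s ∈ U, ∀ t ∈ U, Sp s t δ → {u ∈ U | u δ = t δ}.Finite := fun s hs t ht h1 =>
    ih _ (h s hs t ht δ h1).2.1 fun u hu v hv ε h3 => by
      obtain ⟨c1, -, c3⟩ := h u hu.1 v hv.1 ε h3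
      refine ⟨c1, ?_, fun w hw => c3 w hw.1⟩
      rw [← hu.2]
      exact (h s hs u hu.1 δ (e s hs u hu.1 (hu.2 ▸ h1.2))).2.2 v hv.1 ε
        (lt_of_le_of_ne (not_lt.1 (h2 ε ⟨u, hu.1, v, hv.1, h3⟩)) fun x =>
          h3.2 (x ▸ hu.2.trans hv.2.symm)) h3
  refine ((k s hs t ht h1).union (k t ht s hs (e t ht s hs h1.2.symm))).subset fun u hu => ?_
  by_contra hn
  simp only [Set.mem_union, Set.mem_ofPred_eq, hu, true_and, not_or] at hn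
  have a1 := (h s hs t ht δ h1).1
  have a2 := (h u hu t ht δ (e u hu t ht hn.1)).1
  have a3 := (h u hu s hs δ (e u hu s hs hn.2)).1
  have := h1.2
  grind

lemma wf (hW : ∀ f : ℕ → W, ∃ w, ∀ n, f n < w) :
    WellFounded fun B A : Finset (W → W) => A ⊂ B ∧ ∃ β, Fa o β (B : Set (W → W)) := by
  refine wellFounded_iff_isEmpty_descending_chain.2 ⟨fun ⟨f, hf⟩ => ?_⟩
  have m : StrictMono f := strictMono_nat_of_lt_succ fun n => (hf n).1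
  choose b hb using fun n => (hf n).2
  obtain ⟨β, hβ⟩ := hW b
  have h : Fa o β {s | ∃ n, s ∈ f n} := fun s ⟨i, hi⟩ t ⟨j, hj⟩ δ hδ => by
    have k := fun n => (hb n).mono subset_rfl (hβ n).le
    obtain ⟨c1, c2, -⟩ := k (i + j) s (m.monotone (by omega) hi) t (m.monotone (by omega) hj) δ hδ
    exact ⟨c1, c2, fun u ⟨l, hl⟩ => (k (i + j + l) s (m.monotone (by omega) hi) t
      (m.monotone (by omega) hj) δ hδ).2.2 u (m.monotone (by omega) hl)⟩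
  have h1 : h.fin.toFinset.card + 1 ≤ (f (h.fin.toFinset.card + 1)).card :=
    StrictMono.le_apply (f := fun n => (f n).card) fun _ _ h => card_lt_card (m h)
  have h2 : (f (h.fin.toFinset.card + 1)).card ≤ h.fin.toFinset.card :=
    card_le_card fun s hs => h.fin.mem_toFinset.2 ⟨_, hs⟩
  omega

end Pool.Agent.H.MP_44bc16_an
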