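import Pool.Agent.H.MP_44bc16_an.A

set_option autoImplicit false

namespace Pool.Agent.H.MP_44bc16_an

open Finset Filter Topology MP_9aa7de MP_160a79_an

variable {W : Type} [LinearOrder W]

/-- extension of conditions -/
def Le (q p : W × (W → W)) : Prop := p.1 ≤ q.1 ∧ ∀ ξ < p.1, q.2 ξ = p.2 ξ

lemma Le.tr (p q r : W × (W → W)) (h : Le p q) (h' : Le q r) : Le p r :=
  ⟨h'.1.trans h.1, fun ξ hξ => (h.2 ξ (hξ.trans_le h'.1)).trans (h'.2 ξ hξ)⟩

lemma Le.rf (p : W × (W → W)) : Le p p := ⟨le_rfl, fun _ _ => rfl⟩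

lemma Le.cl (hW : ∀ f : ℕ → W, ∃ w, ∀ n, f n < w) (f : ℕ → W × (W → W))
    (h : ∀ n, Le (f (n + 1)) (f n)) : ∃ q, ∀ n, Le q (f n) := by
  classical
  have m : ∀ i j, i ≤ j → Le (f j) (f i) := fun i j hij => by
    induction hij with
    | refl => exact Le.rf _
    | step _ ih => exact Le.tr _ _ _ (h _) ih
  obtain ⟨w, hw⟩ := hW fun n => (f n).1
  refine ⟨(w, fun ξ => if h : ∃ n, ξ < (f n).1 then (f h.choose).2 ξ else ξ), fun n =>
    ⟨(hw n).le, fun ξ hξ => ?_⟩⟩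
  have e : ∃ n, ξ < (f n).1 := ⟨n, hξ⟩
  simp only [dif_pos e]
  exact ((m _ _ (le_max_left _ n)).2 ξ e.choose_spec).symm.trans ((m _ _ (le_max_right _ n)).2 ξ hξ)

/-- admissible coefficient vectors -/
def Ac (o : W) (p : W × (W → W)) (β : W) (φ : (W → W) →₀ ℝ) : Prop :=
  Fa o β φ.support ∧ (∀ t ∈ φ.support, ∀ ξ < p.1, t ξ = p.2 ξ) ∧ ∀ i, |φ i| ≤ 1

lemma seq (hW : ∀ f : ℕ → W, ∃ w, ∀ n, f n < w) (o : W) (N : ((W → W) →₀ ℝ) → ℝ) {a b : ℝ}
    (ha : ∀ t, a ≤ N (Finsupp.single t 1)) (hb : ∀ p β φ, Ac o p β φ → N φ ≤ b) :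
    ∃ (d : ℝ) (φ : ℕ → (W → W) →₀ ℝ), a ≤ d ∧ (∀ n : ℕ, d - 1 / (n + 1) < N (φ n)) ∧
      ∀ i j, i < j → ∀ c : ℝ, |c| ≤ 1 → N (φ i + c • φ j) ≤ d := by
  classical
  let D := fun p β => sSup (N '' {φ | Ac o p β φ})
  have s1 : ∀ p β, Ac o p β (Finsupp.single p.2 1) := fun p β =>
    ⟨Fa.sub _ (by simp), fun t ht ξ _ => by
      rw [mem_singleton.1 (Finsupp.support_single_subset ht)], fun i => by
      rw [Finsupp.single_apply]; split_ifs <;> simp⟩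
  have bb : ∀ p β, BddAbove (N '' {φ | Ac o p β φ}) := fun p β =>
    ⟨b, by rintro _ ⟨φ, h, rfl⟩; exact hb p β φ h⟩
  have ne : ∀ p β, (N '' {φ | Ac o p β φ}).Nonempty := fun p β => ⟨_, _, s1 p β, rfl⟩
  have lo : ∀ p β, a ≤ D p β := fun p β => (ha _).trans (le_csSup (bb p β) ⟨_, s1 p β, rfl⟩)
  have mo : ∀ p q β γ, Le q p → β ≤ γ → D q β ≤ D p γ := fun p q β γ h h' =>
    csSup_le_csSup (bb _ _) (ne _ _) (Set.image_mono fun φ hφ => ⟨hφ.1.mono subset_rfl h',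
      fun t ht ξ hξ => (hφ.2.1 t ht ξ (hξ.trans_le h.1)).trans (h.2 ξ hξ), hφ.2.2⟩)
  have st : ∀ β p, ∃ q, Le q p ∧ ∀ r, Le r q → D r β = D q β := fun β p => by
    obtain ⟨q, h1, h2⟩ := stab Le Le.rf (Le.cl hW) Le.tr (fun p => -D p β)
      (fun p q h => neg_le_neg (mo _ _ _ _ h le_rfl)) (fun p => neg_le_neg (lo p β)) p
    exact ⟨q, h1, fun r hr => neg_injective (h2 r hr)⟩
  obtain ⟨o', ho⟩ := hW fun _ => o
  obtain ⟨p0, -, hp0⟩ := st o' (o, id)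
  obtain ⟨⟨⟨p, β⟩, q1⟩, ⟨-, q2⟩, q3⟩ := stab
    (P := {z : (W × (W → W)) × W // ∀ r, Le r z.1 → D r z.2 = D z.1 z.2})
    (fun z y => Le z.1.1 y.1.1 ∧ y.1.2 ≤ z.1.2) (fun _ => ⟨Le.rf _, le_rfl⟩)
    (fun f hf => by
      obtain ⟨q, hq⟩ := Le.cl hW _ fun n => (hf n).1
      obtain ⟨γ, hγ⟩ := hW fun n => (f n).1.2
      obtain ⟨r, h1, h2⟩ := st γ q
      exact ⟨⟨(r, γ), h2⟩, fun n => ⟨Le.tr _ _ _ h1 (hq n), (hγ n).le⟩⟩)
    (fun _ _ _ h h' => ⟨Le.tr _ _ _ h.1 h'.1, h'.2.trans h.2⟩) (fun z => D z.1.1 z.1.2)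
    (fun y z h => (y.2 _ h.1).symm.trans_le (mo _ _ _ _ (Le.rf _) h.2)) (M := b)
    (fun z => csSup_le (ne _ _) (by rintro _ ⟨φ, h, rfl⟩; exact hb _ _ φ h)) ⟨(p0, o'), hp0⟩
  obtain ⟨γ, hγ⟩ := hW fun _ => β
  obtain ⟨q, r1, r2⟩ := st γ p
  have r3 : D q γ = D p β := q3 ⟨(q, γ), r2⟩ ⟨r1, (hγ 0).le⟩
  choose nx hx using fun w : W => hW fun _ => w
  let δ : ℕ → W := fun n => Nat.rec q.1 (fun _ => nx) n
  have dm : StrictMono δ := strictMono_nat_of_lt_succ fun n => hx (δ n) 0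
  let g : W → W := fun ξ => if ξ < q.1 then q.2 ξ else o
  let c : ℕ → W × (W → W) := fun n => (δ (n + 1), Function.update g (δ n) β)
  have c0 : ∀ n, Le (c n) q := fun n => ⟨dm.monotone (n + 1).zero_le, fun ξ hξ => by
    simp only [c]
    rw [Function.update_of_ne (hξ.trans_le (dm.monotone n.zero_le)).ne]
    exact if_pos hξ⟩
  have ex : ∀ n : ℕ, ∃ φ, Ac o (c n) β φ ∧ D p β - 1 / (n + 1) < N φ := fun n => by
    obtain ⟨_, ⟨φ, h1, rfl⟩, h2⟩ := exists_lt_of_lt_csSup (ne (c n) β)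
      (show D p β - 1 / (n + 1) < D (c n) β by
        rw [q1 _ (Le.tr _ _ _ (c0 n) r1)]
        exact sub_lt_self _ (by positivity))
    exact ⟨φ, h1, h2⟩
  choose φ f1 f2 using ex
  refine ⟨D p β, φ, lo _ _, f2, fun i j h k hk => r3 ▸ le_csSup (bb q γ) ⟨_, ?_, rfl⟩⟩
  have a1 : ∀ s ∈ (φ i).support, (∀ ξ < δ i, s ξ = g ξ) ∧ s (δ i) = β := fun s hs =>
    ⟨fun ξ hξ => ((f1 i).2.1 s hs ξ (hξ.trans (dm i.lt_succ_self))).trans
      (Function.update_of_ne hξ.ne β g),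
      ((f1 i).2.1 s hs _ (dm i.lt_succ_self)).trans (Function.update_self (δ i) β g)⟩
  have a2 : ∀ s ∈ (φ j).support, (∀ ξ < δ i, s ξ = g ξ) ∧ s (δ i) = o := fun s hs =>
    ⟨fun ξ hξ => ((f1 j).2.1 s hs ξ (hξ.trans (dm (h.trans j.lt_succ_self)))).trans
      (Function.update_of_ne (hξ.trans (dm h)).ne β g),
      ((f1 j).2.1 s hs _ (dm (h.trans j.lt_succ_self))).trans ((Function.update_of_ne (dm h).ne β g).trans
        (if_neg (not_lt.2 (dm.monotone i.zero_le))))⟩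
  have o1 : o < β := (ho 0).trans_le q2
  have su : ∀ s ∈ (φ i + k • φ j).support, s ∈ (φ i).support ∨ s ∈ (φ j).support := fun s hs => by
    by_contra hn
    simp only [Finsupp.mem_support_iff, not_or, not_not] at hn
    simp [hn.1, hn.2] at hs
  refine ⟨(Fa.un (f1 i).1 (f1 j).1 o1 (hγ 0) a1 a2).mono su le_rfl, fun t ht ξ hξ => ?_,
    fun t => ?_⟩
  · exact (su t ht).elim (fun h => ((f1 i).2.1 t h ξ (hξ.trans_le (c0 i).1)).trans ((c0 i).2 ξ hξ))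
      fun h => ((f1 j).2.1 t h ξ (hξ.trans_le (c0 j).1)).trans ((c0 j).2 ξ hξ)
  · by_cases e : φ j t = 0
    · simpa [e] using (f1 i).2.2 t
    · have : φ i t = 0 := by
        by_contra e'
        exact o1.ne' ((a1 t (Finsupp.mem_support_iff.2 e')).2.symm.trans
          (a2 t (Finsupp.mem_support_iff.2 e)).2)
      simpa [this, abs_mul] using mul_le_one₀ hk (abs_nonneg _) ((f1 j).2.2 t)

lemma dia {X : Type} [NormedAddCommGroup X] [NormedSpace ℝ X] (N : Seminorm ℝ X) {d : ℝ}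
    (y : ℕ → X) (h1 : ∀ n : ℕ, d - 1 / (n + 1) < N (y n))
    (h2 : ∀ i j, i < j → ∀ c : ℝ, |c| ≤ 1 → N (y i + c • y j) ≤ d) :
    ∀ x ∈ convexHull ℝ (Set.range y),
      IsLUB ((fun z => N (x - z)) '' convexHull ℝ (Set.range y)) d := by
  have cv : ∀ v : X, Convex ℝ {x | N (x + v) ≤ d} := fun v => by
    simpa using (N.convexOn.translate_left v).convex_le d
  have h3 : ∀ i j, N (y i + -y j) ≤ d := fun i j => by
    rcases lt_trichotomy i j with h | rfl | h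
    · simpa using h2 i j h (-1) (by simp)
    · simpa using (apply_nonneg N _).trans (h2 0 1 one_pos 0 (by simp))
    · rw [← map_neg_eq_map]
      simpa [add_comm] using h2 j i h (-1) (by simp)
  have up : ∀ x ∈ convexHull ℝ (Set.range y), ∀ z ∈ convexHull ℝ (Set.range y), N (x - z) ≤ d :=
    fun x hx z hz => by
      rw [sub_eq_add_neg]
      refine convexHull_min (t := {x | N (x + -z) ≤ d}) ?_ (cv _) hx
      rintro _ ⟨i, rfl⟩
      rw [Set.mem_ofPred_eq, ← map_neg_eq_map, neg_add, neg_neg, add_comm]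
      exact convexHull_min (t := {z | N (z + -y i) ≤ d}) (by rintro _ ⟨j, rfl⟩; exact h3 j i)
        (cv _) hz
  intro x hx
  refine ⟨by rintro _ ⟨z, hz, rfl⟩; exact up x hx z hz, fun r hr => ?_⟩
  have ev : ∀ᶠ n in atTop, N (x + y n) ≤ d := by
    refine convexHull_min (t := {x | ∀ᶠ n in atTop, N (x + y n) ≤ d}) ?_
      (fun u hu v hv a b ha hb hab => (hu.and hv).mono fun n hn => cv (y n) hn.1 hn.2 ha hb hab) hx
    rintro _ ⟨i, rfl⟩
    exact (eventually_gt_atTop i).mono fun n hn => by simpa using h2 i n hn 1 (by simp)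
  refine le_of_forall_pos_le_add fun ε hε => ?_
  obtain ⟨n, n1, n2⟩ := (ev.and ((tendsto_one_div_add_atTop_nhds_zero_nat (𝕜 := ℝ)).eventually
    (gt_mem_nhds (half_pos hε)))).exists
  have k1 : N (x - y n) ≤ r := hr ⟨_, subset_convexHull _ _ ⟨n, rfl⟩, rfl⟩
  have k2 := map_sub_le_add N (x + y n) (x - y n)
  rw [show x + y n - (x - y n) = (2 : ℝ) • y n by rw [two_smul]; abel, map_smul_eq_mul,
    Real.norm_two] at k2
  linarith [h1 n]

theorem main : ∃ (X : Type) (_ : NormedAddCommGroup X) (_ : NormedSpace ℝ X) (_ : CompleteSpace X),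
    Function.Surjective (NormedSpace.inclusionInDoubleDual ℝ X) ∧
    ∀ (N : Seminorm ℝ X) (a b : ℝ), 0 < a → (∀ x, a * ‖x‖ ≤ N x ∧ N x ≤ b * ‖x‖) →
      ∃ (C : Set X) (d : ℝ), Convex ℝ C ∧ C.Nonempty ∧ 0 < d ∧
        ∀ x ∈ C, IsLUB ((fun z => N (x - z)) '' C) d := by
  classical
  obtain ⟨W, _, _, ⟨o⟩, hW⟩ := exW
  have her : ∀ A B : Finset (W → W), A ⊆ B → (∃ β, Fa o β (B : Set (W → W))) →
      ∃ β, Fa o β (A : Set (W → W)) := fun A B h ⟨β, h'⟩ => ⟨β, h'.mono h le_rfl⟩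
  obtain ⟨X, _, _, _, x, ev, G⟩ := exG her (fun i => ⟨o, Fa.sub _ (by simp)⟩) id
  refine ⟨StrongDual ℝ X, inferInstance, inferInstance, inferInstance, fun Ψ => ⟨Ψ.comp
    (NormedSpace.inclusionInDoubleDual ℝ X), ContinuousLinearMap.ext fun Φ => ?_⟩,
    fun N a b ha h => ?_⟩
  · obtain ⟨v, rfl⟩ := refl G her (wf hW) Φ
    rfl
  obtain ⟨d, φ, h1, h2, h3⟩ := seq hW o (fun φ => N (ev φ)) (a := a) (b := |b|) (fun t => by
    have k := ((ev (Finsupp.single t 1)).le_opNorm (x t)).trans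
      (mul_le_of_le_one_right (norm_nonneg _) (G.nx t))
    rw [G.h1, Finsupp.single_eq_same, norm_one] at k
    exact (le_mul_of_one_le_right ha.le k).trans (h _).1) fun p β φ hφ =>
      (h _).2.trans ((mul_le_mul_of_nonneg_right (le_abs_self b) (norm_nonneg _)).trans
        (mul_le_of_le_one_right (abs_nonneg b) ((ev φ).opNorm_le_bound zero_le_one fun v => by
          simpa using G.le (.base φ ⟨β, hφ.1⟩ hφ.2.2) v)))
  exact ⟨_, d, convex_convexHull _ _, (Set.range_nonempty _).convexHull, ha.trans_le h1,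
    dia N (fun n => ev (φ n)) h2 fun i j h c hc => by simpa using h3 i j h c hc⟩

end Pool.Agent.H.MP_44bc16_an
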